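import Mathlib
import Pool.Agent.H6.Vec

namespace Pool.Agent.Results.MP_1f7bca_co.Counter

open Set MvPolynomial Pool.Agent.H6.Vec
open scoped Matroid

variable {α : Type}

/-- `M` is representable over the field with two elements. -/
def Binary (M : Matroid α) : Prop :=
  ∃ (V : Type) (_ : AddCommGroup V) (_ : Module (ZMod 2) V) (v : α → V),
    ∀ I ⊆ M.E, (M.Indep I ↔ LinearIndepOn (ZMod 2) v I)

/-- Any two distinct elements lie in a common circuit. -/
def Connected (M : Matroid α) : Prop :=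
  M.E.Nonempty ∧ ∀ e ∈ M.E, ∀ f ∈ M.E, e ≠ f → ∃ C, M.IsCircuit C ∧ e ∈ C ∧ f ∈ C

/-- No loops and no parallel pairs: every circuit has at least three elements. -/
def Simple (M : Matroid α) : Prop := ∀ C, M.IsCircuit C → 3 ≤ C.encard

/-- A cycle is a (possibly empty) disjoint union of circuits. -/
def IsCycle (M : Matroid α) (X : Set α) : Prop :=
  ∃ S : Set (Set α), (∀ C ∈ S, M.IsCircuit C) ∧ S.PairwiseDisjoint id ∧ X = ⋃₀ S

open Classical in
/-- The cycle ideal: the kernel of `x_D ↦ s ∏_{e ∈ D} t_e`, where `s` is the variable `none`. -/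
noncomputable def cycleIdeal (K : Type) [Field K] [Fintype α] (M : Matroid α) :
    Ideal (MvPolynomial {D // IsCycle M D} K) :=
  RingHom.ker (aeval (R := K) fun D : {D // IsCycle M D} =>
    (X none * ∏ e with e ∈ D.1, X (some e) : MvPolynomial (Option α) K))

/-- `μ(M) ≤ d`: the cycle ideal is generated by its homogeneous elements of degree at most `d`. -/
def MuLe (K : Type) [Field K] [Fintype α] (M : Matroid α) (d : ℕ) : Prop :=
  cycleIdeal K M = Ideal.span {f | f ∈ cycleIdeal K M ∧ ∃ j ≤ d, f.IsHomogeneous j}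

/-- One deletion, series contraction or coloop contraction. -/
def Step (N N' : Matroid α) : Prop :=
  (∃ e ∈ N.E, N' = N ＼ {e}) ∨ (∃ e f, e ≠ f ∧ N.IsCocircuit {e, f} ∧ N' = N ／ {e}) ∨
    ∃ e, N.IsColoop e ∧ N' = N ／ {e}

/-- `N` is isomorphic to the dual of the cycle matroid of `K₅`. -/
def IsK5Dual (N : Matroid α) : Prop :=
  ∃ f : α → Sym2 (Fin 5), BijOn f N.E (⊤ : SimpleGraph (Fin 5)).edgeSet ∧
    ∀ I ⊆ N.E, (N✶.Indep I ↔ (SimpleGraph.fromEdgeSet (f '' I)).IsAcyclic)

/-- `M` has an `M(K₅)*`-restricted minor. -/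
def HasRestrictedMinor (M : Matroid α) : Prop :=
  ∃ N, Relation.ReflTransGen Step M N ∧ IsK5Dual N

def par (n : ℕ) : ZMod 2 := (n % 2 + n / 2 % 2 + n / 4 % 2 + n / 8 % 2 : ℕ)

def c (a : Fin 16) (e : Fin 14) : ZMod 2 := par (a.1 &&& (e.1 + 1))

def D (a : Fin 16) : Finset (Fin 14) := {e | c a e ≠ 0}

def code : Submodule (ZMod 2) (Fin 14 → ZMod 2) where
  carrier := range c
  add_mem' := by
    rintro _ _ ⟨a, rfl⟩ ⟨b, rfl⟩
    revert a b
    simp only [mem_range]
    decide +kernel
  zero_mem' := ⟨0, by decide⟩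
  smul_mem' := by
    rintro r _ ⟨a, rfl⟩
    revert r a
    simp only [mem_range]
    decide +kernel

noncomputable def M : Matroid (Fin 14) := vecM (ZMod 2) fun e => code.mkQ (Pi.single e 1)

lemma indep (I : Set (Fin 14)) : M.Indep I ↔ ∀ a ≠ 0, ¬ (D a : Set (Fin 14)) ⊆ I := by
  have key : ∀ (t : Finset (Fin 14)) (g : Fin 14 → ZMod 2),
      ∑ i ∈ t, g i • code.mkQ (Pi.single i 1) = 0 ↔ ∃ a, ∀ i, c a i = if i ∈ t then g i else 0 := by
    intro t g
    simp only [← map_smul, ← map_sum]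
    rw [Submodule.mkQ_apply, Submodule.Quotient.mk_eq_zero]
    refine exists_congr fun a => funext_iff.trans (forall_congr' fun i => ?_)
    simp [Finset.sum_apply, Pi.single_apply]
  rw [M, vecM_indep, linearIndepOn_iff']
  constructor
  · intro h a ha s
    obtain ⟨e, he⟩ := (by decide +kernel : ∀ a ≠ 0, ∃ e, e ∈ D a) a ha
    exact (Finset.mem_filter.mp he).2 (h _ (c a) s ((key _ _).mpr ⟨a, fun i => by simp [D]⟩) e he)
  · intro h t g s e i hi
    obtain ⟨a, ha⟩ := (key _ _).mp e
    by_cases a0 : a = 0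
    · rw [← if_pos (t := g i) (e := 0) hi, ← ha, a0]
      exact (by decide : ∀ i, c 0 i = 0) i
    · refine absurd (fun x hx => s ?_) (h a a0)
      by_contra n
      exact (Finset.mem_filter.mp hx).2 ((ha x).trans (if_neg n))

lemma circ (C : Set (Fin 14)) : M.IsCircuit C ↔ ∃ a ≠ 0, C = D a := by
  have dep : ∀ X, M.Dep X ↔ ∃ a ≠ 0, (D a : Set (Fin 14)) ⊆ X := fun X => by
    rw [Matroid.dep_iff, indep, and_iff_left (show X ⊆ M.E from subset_univ X)]; simp
  rw [Matroid.isCircuit_iff]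
  constructor
  · rintro ⟨h, h2⟩
    obtain ⟨a, ha, s⟩ := (dep _).mp h
    exact ⟨a, ha, (h2 ((dep _).mpr ⟨a, ha, subset_rfl⟩) s).symm⟩
  · rintro ⟨a, ha, rfl⟩
    refine ⟨(dep _).mpr ⟨a, ha, subset_rfl⟩, fun X h s => s.antisymm ?_⟩
    obtain ⟨b, hb, t⟩ := (dep _).mp h
    rwa [← (by decide +kernel : ∀ a b, b ≠ 0 → D b ⊆ D a → b = a) a b hb
      (Finset.coe_subset.mp (t.trans s))]

lemma cyc (X : Set (Fin 14)) : IsCycle M X ↔ ∃ a, X = D a := by
  have z : (D 0 : Set (Fin 14)) = ∅ := by rw [show D 0 = ∅ by decide]; simp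
  constructor
  · rintro ⟨S, h1, h2, rfl⟩
    rcases S.eq_empty_or_nonempty with rfl | ⟨C, hC⟩
    · exact ⟨0, by simp [z]⟩
    obtain ⟨a, ha, rfl⟩ := (circ _).mp (h1 C hC)
    refine ⟨a, (sUnion_subset fun T hT => ?_).antisymm (subset_sUnion_of_mem hC)⟩
    obtain ⟨b, hb, rfl⟩ := (circ _).mp (h1 T hT)
    exact (h2.elim hT hC fun h => (by decide +kernel : ∀ a ≠ 0, ∀ b ≠ 0, ¬ Disjoint (D b) (D a))
      a ha b hb (Finset.disjoint_coe.mp h)).subset
  · rintro ⟨a, rfl⟩
    by_cases h : a = 0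
    · exact ⟨∅, by simp, by simp, by simp [h, z]⟩
    · exact ⟨{↑(D a)}, by simpa [circ] using ⟨a, h, rfl⟩, by simp, by simp⟩

lemma cos : Simple M✶ := by
  intro K hK
  by_contra! h
  obtain ⟨e, he⟩ := hK.nonempty
  obtain ⟨f, hf⟩ : ∃ f, e ≠ f ∧ K ⊆ {e, f} := by
    by_cases g : ∃ f ∈ K, e ≠ f
    · obtain ⟨f, f1, f2⟩ := g
      refine ⟨f, f2, (Set.Finite.eq_of_subset_of_encard_le (toFinite _) (pair_subset he f1) ?_).ge⟩
      rw [encard_pair f2]
      exact Order.le_of_lt_succ h
    · push Not at g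
      exact ⟨e + 1, (by decide : ∀ e : Fin 14, e ≠ e + 1) e, fun x hx => .inl (g x hx).symm⟩
  obtain ⟨a, a0, a1, a2⟩ := (by decide +kernel : ∀ e f, e ≠ f → ∃ a ≠ 0, e ∈ D a ∧ f ∉ D a) e f hf.1
  refine ((circ _).mpr ⟨a, a0, rfl⟩).inter_isCocircuit_ne_singleton hK (e := e)
    (subset_antisymm (fun x hx => ?_) (singleton_subset_iff.mpr ⟨a1, he⟩))
  rcases hf.2 hx.2 with r | r
  · exact r
  · exact absurd (r ▸ hx.1) a2

lemma rk : M✶.eRank ≤ 4 := by
  have h := M.eRank_add_eRank_dual
  have h1 := ((indep ({2, 4, 5, 6, 8, 9, 10, 11, 12, 13} : Finset (Fin 14))).mpr (by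
    simp only [Finset.coe_subset]; decide +kernel)).encard_le_eRank
  rw [encard_coe_eq_coe_finsetCard] at h1
  rw [show M.E = univ from rfl, encard_univ, ENat.card_eq_coe_fintype_card, Fintype.card_fin] at h
  exact (ENat.add_le_add_iff_left (k := (10 : ℕ)) (by simp)).mp ((add_le_add_left h1 _).trans h.le)

lemma nominor : ¬ HasRestrictedMinor M := by
  rintro ⟨N, h, f, f1, f2⟩
  have inv : N = M ∨ ∀ I, N✶.Indep I → I.encard ≤ 3 := by
    clear f1 f2
    induction h with
    | refl => exact .inl rfl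
    | tail _ s ih =>
      right
      rcases ih with rfl | ih
      · have n1 : ∀ e, ¬ M.IsColoop e := fun e h => by simpa using cos _ h.isCocircuit
        rcases s with ⟨e, he, rfl⟩ | ⟨e, f, h1, h2, rfl⟩ | ⟨e, h, rfl⟩
        · intro I hI
          rw [Matroid.dual_delete, (Matroid.isNonloop_of_not_isLoop (M := M✶) he
            (n1 e)).contractElem_indep_iff] at hI
          have := hI.2.encard_le_eRank.trans rk
          rw [encard_insert_of_notMem hI.1] at this
          exact (ENat.add_le_add_iff_right (k := 1) (by simp)).mp this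
        · have := cos _ h2
          rw [encard_pair h1] at this
          norm_num at this
        · exact absurd h (n1 e)
      · rcases s with ⟨e, -, rfl⟩ | ⟨e, f, -, -, rfl⟩ | ⟨e, -, rfl⟩
        · exact fun I hI => ih I (Matroid.dual_delete _ _ ▸ hI).of_contract
        · exact fun I hI => ih I (Matroid.dual_contract _ _ ▸ hI).of_delete
        · exact fun I hI => ih I (Matroid.dual_contract _ _ ▸ hI).of_delete
  rcases inv with rfl | inv
  · have := f1.ncard_eq
    rw [show M.E = univ from rfl, ncard_univ, Nat.card_eq_fintype_card, Fintype.card_fin,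
      ← SimpleGraph.coe_edgeFinset, ncard_coe_finset,
      SimpleGraph.card_edgeFinset_top_eq_card_choose_two] at this
    revert this; decide
  · have e : f '' (N.E ∩ f ⁻¹' (SimpleGraph.starGraph 0).edgeSet) =
        (SimpleGraph.starGraph 0).edgeSet := by
      rw [image_inter_preimage, f1.image_eq]
      exact inter_eq_right.mpr (SimpleGraph.edgeSet_mono le_top)
    have := inv _ ((f2 _ inter_subset_left).mpr (by
      rw [e, SimpleGraph.fromEdgeSet_edgeSet]; exact SimpleGraph.isAcyclic_starGraph _))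
    rw [← (f1.injOn.mono inter_subset_left).encard_image, e, ← SimpleGraph.coe_edgeFinset,
      encard_coe_eq_coe_finsetCard, show (SimpleGraph.starGraph (0 : Fin 5)).edgeFinset.card = 4 by
        decide +kernel] at this
    norm_num at this

lemma arith (u w : Fin 16 → ℕ) (h0 : ∑ a, u a = ∑ a, w a)
    (h : ∀ e, ∑ a, (if e ∈ D a then u a else 0) = ∑ a, if e ∈ D a then w a else 0)
    (b : ∑ a, u a ≤ 5) : u = w := by
  let s : Fin 16 → ℤ := fun a => 1 - 2 * (par a).val
  let m : Fin 16 → Fin 14 → ℤ := fun a e => (if e ∈ D a then -1 else 1) - s a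
  have t : ∀ a b, 16 * ((if a = b then 1 else 0) - s a * if 0 = b then 1 else 0) =
      (1 - s a + ∑ e, m a e) - 2 * ∑ e, m a e * if e ∈ D b then 1 else 0 := by decide +kernel
  have t2 : (∀ a, s a = 1 ∨ s a = -1) ∧ ∑ a, s a = 0 := by decide +kernel
  have k : ∀ (z : Fin 16 → ℕ) a, 16 * (z a - s a * z 0) = (1 - s a + ∑ e, m a e) * (∑ b, z b : ℕ) -
      2 * ∑ e, m a e * (∑ b, if e ∈ D b then z b else 0 : ℕ) := by
    intro z a
    have := Finset.sum_congr rfl fun b (_ : b ∈ Finset.univ) => congrArg (· * (z b : ℤ)) (t a b)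
    simp only [mul_sub, sub_mul, mul_assoc, Finset.sum_sub_distrib, ← Finset.mul_sum, ite_mul,
      one_mul, zero_mul, Finset.sum_ite_eq, Finset.mem_univ, if_true, Finset.sum_mul] at this
    rw [Finset.sum_comm] at this
    simp only [← Finset.mul_sum] at this
    push_cast
    linear_combination this
  have k2 : ∀ a, (u a : ℤ) - w a = s a * (u 0 - w 0) := fun a => by
    have := k u a
    simp only [h0, h] at this
    linarith [k w a]
  have k3 : ∀ x : ℤ, x = 1 ∨ x = -1 → 16 * x * (u 0 - w 0) ≤ 10 := by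
    intro x hx
    have := Finset.sum_le_sum fun a (_ : a ∈ Finset.univ) =>
      show (x + s a) * (u 0 - w 0) ≤ 2 * u a by
        have := k2 a
        rcases hx with rfl | rfl <;> rcases t2.1 a with e | e <;> rw [e] at this ⊢ <;> omega
    rw [← Finset.sum_mul, Finset.sum_add_distrib, t2.2, ← Finset.mul_sum, ← Nat.cast_sum] at this
    simp only [Finset.sum_const, Finset.card_univ, Fintype.card_fin, nsmul_eq_mul] at this
    push_cast at this ⊢
    have b' : (∑ a, (u a : ℤ)) ≤ 5 := by exact_mod_cast b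
    linarith
  have := k3 1 (.inl rfl)
  have := k3 (-1) (.inr rfl)
  funext a
  have := k2 a
  rw [show (u 0 : ℤ) - w 0 = 0 by omega] at this
  omega

theorem result (K : Type) [Field K] : ¬ ∀ (α : Type) [Fintype α] (M : Matroid α), Binary M →
    Connected M → Simple M ∨ Simple M✶ → ¬ HasRestrictedMinor M → MuLe K M 5 := by
  classical
  intro h
  have := h _ M ⟨_, _, _, _, fun I _ => vecM_indep _ _ I⟩ ⟨⟨0, trivial⟩, fun e _ f _ _ => by
    obtain ⟨a, a0, a1, a2⟩ := (by decide +kernel : ∀ e f, ∃ a ≠ 0, e ∈ D a ∧ f ∈ D a) e f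
    exact ⟨_, (circ _).mpr ⟨a, a0, rfl⟩, a1, a2⟩⟩ (.inr cos) nominor
  let g : Fin 16 ≃ {D // IsCycle M D} := .ofBijective (fun a => ⟨D a, (cyc _).mpr ⟨a, rfl⟩⟩)
    ⟨fun a b e => (by decide +kernel : ∀ a b, D a = D b → a = b) a b
      (Finset.coe_injective (Subtype.ext_iff.mp e)), fun X => by
        obtain ⟨a, ha⟩ := (cyc _).mp X.2
        exact ⟨a, Subtype.ext ha.symm⟩⟩
  let d : {D // IsCycle M D} → Option (Fin 14) →₀ ℕ := fun X =>
    Finsupp.single none 1 + ∑ e with e ∈ X.1, Finsupp.single (some e) 1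
  have e1 : ∀ f, f ∈ cycleIdeal K M ↔ aeval (R := K) (fun i => monomial (d i) (1 : K)) f = 0 := by
    intro f
    rw [cycleIdeal, RingHom.mem_ker]
    congr! 4
    simp only [d, monomial_sum_one, X, monomial_single_add, pow_one]
  have e2 : ∀ u : {D // IsCycle M D} →₀ ℕ, (u.sum fun i k => k • d i) none = ∑ a, u (g a) ∧
      ∀ e, (u.sum fun i k => k • d i) (some e) = ∑ a, if e ∈ D a then u (g a) else 0 := by
    intro u
    rw [Finsupp.sum_fintype _ _ (by simp), ← g.sum_comp]
    simp [d, g, Finsupp.single_apply, Finsupp.finsetSum_apply]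
  let U : (Fin 16 → ℕ) → {D // IsCycle M D} →₀ ℕ := fun p =>
    Finsupp.equivFunOnFinite.symm (p ∘ g.symm)
  have hU : ∀ p a, U p (g a) = p a := fun p a => by simp [U]
  have e3 : monomial (U fun a => (par a).val) (1 : K) - monomial (U fun a => 1 - (par a).val) 1 ∈
      cycleIdeal K M := by
    rw [e1, map_sub, aeval_mon, aeval_mon, sub_eq_zero]
    congr 2
    ext (_ | e)
    · simp only [(e2 _).1, hU]; decide
    · simp only [(e2 _).2, hU]; revert e; decide +kernel
  rw [this, Ideal.span_eq_bot.mpr, Ideal.mem_bot, sub_eq_zero] at e3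
  · have := DFunLike.congr_fun (monomial_left_injective one_ne_zero e3) (g 0)
    rw [hU, hU] at this
    revert this; decide
  rintro f ⟨f1, j, j5, f2⟩
  refine eq_zero_of_inj d f ((e1 f).mp f1) fun u hu w _ e => ?_
  have := arith (u ∘ g) (w ∘ g) ((e2 u).1.symm.trans ((DFunLike.congr_fun e _).trans (e2 w).1))
    (fun x => ((e2 u).2 x).symm.trans ((DFunLike.congr_fun e _).trans ((e2 w).2 x))) (by
      have := f2 (mem_support_iff.mp hu)
      rw [Pi.one_def, ← Finsupp.degree_eq_weight_one, Finsupp.degree_eq_sum, ← g.sum_comp] at this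
      exact this.trans_le j5)
  exact DFunLike.coe_injective (g.surjective.injective_comp_right this)

end Pool.Agent.Results.MP_1f7bca_co.Counter
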